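import Pool.Agent.J4H23.HI.Posq

/-! # The number of closed orbits of rotated polynomial fields: a bound linear in the number of equilibria

For every planar polynomial vector field of degree at most `n` (not identically zero) with at most `z ≥ 1`
equilibria, and every `0 < ε ≤ 1`, the field rotated by an angle `a` has at most
`10 ^ 8 z (n + 1) ^ 4 (1 + log ((n + 1) / ε)) / ε` closed orbits in the whole plane, of any size and shape,
for all angles `a` outside a set of measure `ε`.  Without any condition on the equilibria (there may be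
infinitely many) the same holds with `z = n ^ 2`, so with `10 ^ 8 (n + 1) ^ 6` instead of
`10 ^ 9 (n + 1) ^ 8` in `Pool/Agent/Results/MP_95e7ec_an/TypicalRotation.lean`.  The consequences there
(moments of order less than one, closed orbits which survive rotations) are improved in the same way.

The definitions are those of `TypicalRotation.lean`.  The proof is the one given there, with the corners of the
Newton polygon (at most `M + 1` scales for a polynomial of degree `M`, `Pool/Agent/J4H23/HI/NP.lean`) in place of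
all the `(M + 1) ^ 2` scales at which two of the coefficients are of the same size, and with the
number of equilibria kept. -/

open Set MeasureTheory
open scoped ENNReal

namespace Pool.Agent.Results.MP_95e7ec_an.BoundByEquilibria

/-- the vector field `(P, Q)` rotated by the angle `a` -/
noncomputable def rotated (P Q : MvPolynomial (Fin 2) ℝ) (a : ℝ) (z : ℝ × ℝ) : ℝ × ℝ :=
  (Real.cos a * MvPolynomial.eval ![z.1, z.2] P - Real.sin a * MvPolynomial.eval ![z.1, z.2] Q,
    Real.sin a * MvPolynomial.eval ![z.1, z.2] P + Real.cos a * MvPolynomial.eval ![z.1, z.2] Q)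

/-- all closed orbits in the whole plane (ranges of nonconstant periodic solutions, limit cycles or
not) of the field `(P, Q)` rotated by the angle `a`; for `a = 0` these are the closed orbits of
`x' = P, y' = Q` (`rotated_zero`) -/
def closedOrbits (P Q : MvPolynomial (Fin 2) ℝ) (a : ℝ) : Set (Set (ℝ × ℝ)) :=
  {C | ∃ γ : ℝ → ℝ × ℝ, ∃ T : ℝ, 0 < T ∧ (∀ t : ℝ, HasDerivAt γ (rotated P Q a (γ t)) t) ∧
    (∀ t : ℝ, γ (t + T) = γ t) ∧ (∃ s t : ℝ, γ s ≠ γ t) ∧ C = Set.range γ}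

/-- the number of closed orbits in the whole plane, possibly `∞`, of the field `(P, Q)` rotated by
the angle `a` -/
noncomputable def number (P Q : MvPolynomial (Fin 2) ℝ) (a : ℝ) : ℝ≥0∞ :=
  (((closedOrbits P Q a).encard : ℕ∞) : ℝ≥0∞)

/-- the equilibria of `x' = P, y' = Q` -/
def equilibria (P Q : MvPolynomial (Fin 2) ℝ) : Set (ℝ × ℝ) :=
  {p | MvPolynomial.eval ![p.1, p.2] P = 0 ∧ MvPolynomial.eval ![p.1, p.2] Q = 0}

/-- The closed orbit `C` of `(P, Q)` survives the rotations of the field up to the angle `η`: there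
is a continuous path `τ ↦ γ τ`, `0 ≤ τ ≤ 1`, of pairwise different closed orbits of the fields
rotated by angles `a τ`, which starts with `C` at the angle `0`, ends at the angle `η`, and whose
angles in between lie strictly between `0` and `η`. -/
def Survives (P Q : MvPolynomial (Fin 2) ℝ) (η : ℝ) (C : Set (ℝ × ℝ)) : Prop :=
  ∃ (a : ℝ → ℝ) (γ : ℝ → ℝ → ℝ × ℝ) (T : ℝ → ℝ),
    ContinuousOn a (Icc 0 1) ∧ a 0 = 0 ∧ a 1 = η ∧
    (∀ τ ∈ Ioo 0 1, min 0 η < a τ ∧ a τ < max 0 η) ∧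
    ContinuousOn (fun q : ℝ × ℝ => γ q.1 q.2) (Icc 0 1 ×ˢ univ) ∧ ContinuousOn T (Icc 0 1) ∧
    (∀ τ ∈ Icc 0 1, 0 < T τ ∧ (∀ t, HasDerivAt (γ τ) (rotated P Q (a τ) (γ τ t)) t) ∧
      (∀ t, γ τ (t + T τ) = γ τ t) ∧ (∃ s t, γ τ s ≠ γ τ t)) ∧
    (∀ τ ∈ Icc 0 1, ∀ τ' ∈ Icc 0 1, range (γ τ) = range (γ τ') → τ = τ') ∧
    C = range (γ 0)

/-- the length of the set of angles `η` in `(-1, 1)` such that the closed orbit `C` survives the
rotations up to the angle `η` -/
noncomputable def survival (P Q : MvPolynomial (Fin 2) ℝ) (C : Set (ℝ × ℝ)) : ℝ≥0∞ :=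
  volume {η : ℝ | η ∈ Ioo (-1) 1 ∧ Survives P Q η C}

/-- the rotation by the angle `0` does not change the field -/
lemma rotated_zero (P Q : MvPolynomial (Fin 2) ℝ) (z : ℝ × ℝ) : rotated P Q 0 z =
    (MvPolynomial.eval ![z.1, z.2] P, MvPolynomial.eval ![z.1, z.2] Q) := by
  simp [rotated]

variable {P Q : MvPolynomial (Fin 2) ℝ}

lemma number_eq (a : ℝ) : number P Q a = (((H709U.Cl P Q a).encard : ℕ∞) : ℝ≥0∞) := rfl

lemma mem_closedOrbits (C : Set (ℝ × ℝ)) :
    C ∈ closedOrbits P Q 0 ↔ H709R2.ClosedOrbit (H709R2.field P Q) C := by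
  have h : C ∈ closedOrbits P Q 0 ↔ H709R2.ClosedOrbit (H709U.rf (H709R2.field P Q) 0) C := Iff.rfl
  rw [h, W960.HP.rf_zero]

lemma survives_iff (η : ℝ) (C : Set (ℝ × ℝ)) :
    Survives P Q η C ↔ W960.HP.PersG (H709R2.field P Q) (fun _ _ => True) η C := by
  constructor
  · rintro ⟨a, γ, T, h1, h2, h3, h4, h5, h6, h7, h8, h9⟩
    exact ⟨a, γ, T, h1, h2, h3, h4, h5, h6, fun τ hτ =>
      ⟨(h7 τ hτ).1, (h7 τ hτ).2.1, (h7 τ hτ).2.2.1, (h7 τ hτ).2.2.2, trivial⟩, h8, h9⟩
  · rintro ⟨a, γ, T, h1, h2, h3, h4, h5, h6, h7, h8, h9⟩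
    exact ⟨a, γ, T, h1, h2, h3, h4, h5, h6, fun τ hτ =>
      ⟨(h7 τ hτ).1, (h7 τ hτ).2.1, (h7 τ hτ).2.2.1, (h7 τ hτ).2.2.2.1⟩, h8, h9⟩

/-- **Every polynomial vector field `(P, Q)` of degree at most `n`, not identically zero, with at most `z`
equilibria, or any such field and `z = n ^ 2`:**

* for `0 < ε ≤ 1` and all angles `a` in `(0, π)` outside a set of measure at most `ε` the field rotated
  by `a` has at most `10 ^ 8 z (n + 1) ^ 4 (1 + log ((n + 1) / ε)) / ε` closed orbits in the plane;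
* every interval of angles of length `ε` contains an angle `a` such that the field rotated by `a` has
  at most `4 * 10 ^ 8 z (n + 1) ^ 4 (1 + log ((n + 1) / ε)) / ε` closed orbits in the plane;
* for `0 < q < 1` the integral over all angles of the `q`-th power of the number of closed orbits in
  the plane is at most `10 ^ 10 z (n + 1) ^ 5 / (1 - q) ^ 2`;
* at most `8 * 10 ^ 8 z (n + 1) ^ 4 (1 + log ((n + 1) / ε)) / ε` closed orbits of the field itself survive
  the rotations up to `ε` or up to `-ε`;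
* for `0 < κ ≤ 1` the sum over all closed orbits of the field itself of the `(1 + κ)`-th powers of
  their survival lengths is at most `3 * 10 ^ 10 z (n + 1) ^ 5 / κ ^ 2`. -/
theorem result (n z : ℕ) (P Q : MvPolynomial (Fin 2) ℝ) (hP : P.totalDegree ≤ n)
    (hQ : Q.totalDegree ≤ n) (hne : P ≠ 0 ∨ Q ≠ 0) (hz1 : 1 ≤ z)
    (hz : n ^ 2 ≤ z ∨ (equilibria P Q).encard ≤ z) :
    (∀ ε : ℝ, 0 < ε → ε ≤ 1 →
      volume {a : ℝ | a ∈ Ioo 0 Real.pi ∧
        ENNReal.ofReal (10 ^ 8 * z * (n + 1) ^ 4 * (1 + Real.log ((n + 1) / ε)) / ε) <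
          number P Q a} ≤ ENNReal.ofReal ε) ∧
    (∀ ε θ : ℝ, 0 < ε → ε ≤ 1 → ∃ a ∈ Ioo θ (θ + ε), number P Q a ≤
      ENNReal.ofReal (4 * 10 ^ 8 * z * (n + 1) ^ 4 * (1 + Real.log ((n + 1) / ε)) / ε)) ∧
    (∀ q : ℝ, 0 < q → q < 1 → ∃ g : ℝ → ℝ≥0∞, Measurable g ∧
      (∀ a ∈ Ioo 0 (2 * Real.pi), number P Q a ^ q ≤ g a) ∧
      ∫⁻ a in Ioo 0 (2 * Real.pi), g a ≤
        ENNReal.ofReal (10 ^ 10 * z * (n + 1) ^ 5 / (1 - q) ^ 2)) ∧
    (∀ ε : ℝ, 0 < ε → ε ≤ 1 →
      (({C | C ∈ closedOrbits P Q 0 ∧ (Survives P Q ε C ∨ Survives P Q (-ε) C)}.encard : ℕ∞) :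
        ℝ≥0∞) ≤
      ENNReal.ofReal (8 * 10 ^ 8 * z * (n + 1) ^ 4 * (1 + Real.log ((n + 1) / ε)) / ε)) ∧
    ∀ κ : ℝ, 0 < κ → κ ≤ 1 → ∑' C : closedOrbits P Q 0, survival P Q C ^ (1 + κ) ≤
      ENNReal.ofReal (3 * 10 ^ 10 * z * (n + 1) ^ 5 / κ ^ 2) := by
  have he : equilibria P Q = {p : ℝ × ℝ | H709R2.field P Q p = 0} := by
    ext p
    rw [Set.mem_ofPred_eq]
    unfold H709R2.field
    rw [Prod.mk_eq_zero]
    exact Iff.rfl
  rw [he] at hz
  have hzb : J4H23.HI.Zb n z P Q := ⟨hz1, hz⟩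
  refine ⟨fun ε h0 h1 => J4H23.HI.mainq hP hQ hne hzb h0 h1, fun ε θ h0 h1 => ?_,
    fun q h0 h1 => J4H23.HI.moments hP hQ hne hzb h0 h1, fun ε h0 h1 => ?_, fun κ h0 h1 => ?_⟩
  · obtain ⟨a, ha, h⟩ := J4H23.HI.existsq_angle_near hP hQ hne hzb h0 h1 θ
    exact ⟨a, ha, h⟩
  · have h2 := J4H23.HI.persG_mainq hP hQ hne hzb (G := fun _ _ => True) (σ := 1) (Or.inl rfl) h0 h1
    have h3 := J4H23.HI.persG_mainq hP hQ hne hzb (G := fun _ _ => True) (σ := -1) (Or.inr rfl) h0 h1
    have h4 : {C | C ∈ closedOrbits P Q 0 ∧ (Survives P Q ε C ∨ Survives P Q (-ε) C)} ⊆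
        {C | W960.HP.PersG (H709R2.field P Q) (fun _ _ => True) (1 * ε) C} ∪
        {C | W960.HP.PersG (H709R2.field P Q) (fun _ _ => True) (-1 * ε) C} := by
      rintro C ⟨-, h | h⟩
      · refine Or.inl ?_
        rw [Set.mem_ofPred_eq, one_mul]
        exact (survives_iff ε C).1 h
      · refine Or.inr ?_
        rw [Set.mem_ofPred_eq, neg_one_mul]
        exact (survives_iff (-ε) C).1 h
    have h5 := (encard_le_encard h4).trans (encard_union_le _ _)
    have h6 := (ENat.toENNReal_le.2 h5)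
    rw [ENat.toENNReal_add] at h6
    refine h6.trans ((add_le_add h2 h3).trans (le_of_eq ?_))
    have hc := J4H23.HI.cq_pos n hz1 h0 h1
    rw [← ENNReal.ofReal_add hc.le hc.le]
    congr 1
    unfold J4H23.HI.cq
    ring
  · have h2 := J4H23.HI.sum_rpow hP hQ hne hzb h0 h1 (G := fun _ _ => True) (closedOrbits P Q 0)
    refine le_trans (le_of_eq ?_) h2
    refine tsum_congr fun C => ?_
    unfold survival
    simp only [survives_iff]

end Pool.Agent.Results.MP_95e7ec_an.BoundByEquilibria
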